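import Mathlib

set_option autoImplicit false
set_option maxHeartbeats 400000

open Filter Topology Set

namespace Pool.Agent.Results.MP_843c3c_an.Distinct

/-- real normed spaces -/
structure Sp where
  X : Type
  [g : NormedAddCommGroup X]
  [n : NormedSpace ℝ X]

/-- the space has the angle with exponent `r` -/
def Has (X : Type) [NormedAddCommGroup X] [NormedSpace ℝ X] (r : ℝ) : Prop :=
  ∀ x y : X, x ≠ 0 → y ≠ 0 → ∀ s d : ℝ, s = ‖‖x‖⁻¹ • x + ‖y‖⁻¹ • y‖ → d = ‖‖x‖⁻¹ • x - ‖y‖⁻¹ • y‖ →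
    |(s ^ 2 - d ^ 2) / 4| * ((s ^ 2 + d ^ 2) / 4) ^ r ≤ 1

/-- the class of spaces having the angle -/
def cls (r : ℝ) : Set Sp := {S | @Has S.X S.g S.n r}

theorem rp {k r a w : ℝ} (r0 : 0 ≤ r) (hr : r * (1 - k) ≤ 1 + k) (w0 : 0 ≤ w) (wa : w ≤ a)
    (h : a + k * w ≤ 1) : |a - w| * (a + w) ^ r ≤ 1 := by
  have h1 : a - w ≤ Real.exp (-((1 + k) * w)) := by linarith [Real.add_one_le_exp (-((1 + k) * w))]
  have h2 : (a + w) ^ r ≤ Real.exp ((1 - k) * w * r) := by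
    rw [Real.exp_mul]
    exact Real.rpow_le_rpow (by linarith) (by linarith [Real.add_one_le_exp ((1 - k) * w)]) r0
  rw [abs_of_nonneg (by linarith)]
  refine (mul_le_mul h1 h2 (Real.rpow_nonneg (by linarith) _) (Real.exp_pos _).le).trans ?_
  rw [← Real.exp_add, Real.exp_le_one_iff]; nlinarith

theorem rn {k r a w : ℝ} (r0 : 1 ≤ r) (hr : (r - 1) * (k - 1) ≤ 2) (w0 : 0 ≤ w) (wa : w ≤ a)
    (h : 1 ≤ a + k * w) : |a - w| * (a + w) ^ (-r) ≤ 1 := by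
  have p : 0 < a + w := by
    by_contra c
    have : w = 0 := by linarith
    rw [this] at h c; linarith
  have := one_add_mul_self_le_rpow_one_add (s := a + w - 1) (by linarith) r0
  rw [add_sub_cancel] at this
  rw [abs_of_nonneg (by linarith), Real.rpow_neg p.le, ← div_eq_mul_inv,
    div_le_one (Real.rpow_pos_of_pos p _)]
  nlinarith [mul_le_mul_of_nonneg_left h (sub_nonneg.2 r0), mul_le_mul_of_nonneg_left hr w0]

section
variable {X : Type} [NormedAddCommGroup X] [NormedSpace ℝ X]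

theorem has {r : ℝ} (P : ℝ → ℝ → Prop) (h : ∀ u v : X, ‖u‖ = 1 → ‖v‖ = 1 →
    P (‖u + v‖ ^ 2 / 4) (‖u - v‖ ^ 2 / 4))
    (hP : ∀ a w, 0 ≤ w → w ≤ a → P a w → |a - w| * (a + w) ^ r ≤ 1) : Has X r := by
  intro x y hx hy s d hs hd
  have a := norm_smul_inv_norm (𝕜 := ℝ) hx
  have b := norm_smul_inv_norm (𝕜 := ℝ) hy
  simp only [RCLike.ofReal_real_eq_id, id] at a b
  have c := h _ _ a b
  have e := h _ _ a ((norm_neg _).trans b)
  rw [sub_neg_eq_add, ← sub_eq_add_neg] at e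
  rw [← hs, ← hd] at c e
  rw [sub_div, add_div]
  rcases le_total (d ^ 2 / 4) (s ^ 2 / 4) with l | l
  · exact hP _ _ (by positivity) l c
  · rw [abs_sub_comm, add_comm]; exact hP _ _ (by positivity) l e

theorem fail {r m n B : ℝ} (x y : X) (m0 : 0 < m) (n0 : 0 < n) (hx : ‖x‖ ^ 2 = m * n)
    (hy : ‖y‖ ^ 2 = m * n) (hs : ‖x + y‖ ^ 2 = 4 * m) (hd : ‖x - y‖ ^ 2 = 4 * m * B)
    (h : 1 < (1 - B) / n * ((1 + B) / n) ^ r) (B0 : 0 ≤ B) : ¬Has X r := fun H => by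
  have x0 : x ≠ 0 := by rintro rfl; simp at hx; rcases hx with h | h <;> linarith
  have y0 : y ≠ 0 := by rintro rfl; simp at hy; rcases hy with h | h <;> linarith
  have e : ‖y‖ = ‖x‖ := (pow_left_inj₀ (norm_nonneg _) (norm_nonneg _) two_ne_zero).1 (hy.trans hx.symm)
  have := H x y x0 y0 _ _ rfl rfl
  rw [e, ← smul_add, ← smul_sub, norm_smul, norm_smul, mul_pow, mul_pow, hs, hd, norm_inv, norm_norm,
    inv_pow, hx, show ((m * n)⁻¹ * (4 * m) - (m * n)⁻¹ * (4 * m * B)) / 4 = (1 - B) / n by field_simp,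
    show ((m * n)⁻¹ * (4 * m) + (m * n)⁻¹ * (4 * m * B)) / 4 = (1 + B) / n by field_simp] at this
  exact absurd (h.trans_le ((mul_le_mul_of_nonneg_right (le_abs_self _) (by positivity)).trans this))
    (lt_irrefl _)

end

theorem ev (a a2 b b2 r : ℝ) (h : 0 < -a - b + r * (a - b)) : ∀ᶠ w in 𝓝[>] (0 : ℝ),
    1 < (1 - (a * w + a2 * w ^ 2)) / (1 + b * w + b2 * w ^ 2) *
      ((1 + (a * w + a2 * w ^ 2)) / (1 + b * w + b2 * w ^ 2)) ^ r := by
  have i := hasDerivAt_id (0 : ℝ)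
  have p := (i.const_mul a).fun_add ((i.fun_pow 2).const_mul a2)
  have q := ((i.const_mul b).const_add 1).fun_add ((i.fun_pow 2).const_mul b2)
  have := ((p.const_sub 1).fun_div q (by simp)).fun_mul
    (((p.const_add 1).fun_div q (by simp)).rpow_const (p := r) (.inl (by simp)))
  have t := (hasDerivAt_iff_tendsto_slope_zero.1 this).mono_left (nhdsGT_le_nhdsNE 0)
  filter_upwards [t.eventually (lt_mem_nhds (a := 0) (by simp; linarith)), self_mem_nhdsWithin]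
    with w hw w0
  have w0 : 0 < w := w0
  simpa [w0] using hw

abbrev G : Type := WithLp 2 (ℂ × (ℝ × ℝ))

theorem nG (p : G) : ‖p‖ ^ 2 = p.fst.re ^ 2 + p.fst.im ^ 2 + max |p.snd.1| |p.snd.2| ^ 2 := by
  rw [WithLp.prod_norm_sq_eq_of_L2, Complex.sq_norm, Complex.normSq_apply, sq, sq, sq, sq]; rfl

noncomputable def J (s : ℝ) : ℂ →ₗ[ℝ] G where
  toFun a := WithLp.toLp 2 (a, s • (a.re, a.im))
  map_add' a b := by rw [← WithLp.toLp_add]; simp [mul_add]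
  map_smul' c a := by rw [← WithLp.toLp_smul]; simp [mul_left_comm]

noncomputable def q (a : ℂ) : ℝ := max |a.re| |a.im|

theorem nJ (s : ℝ) (a : ℂ) : ‖J s a‖ ^ 2 = a.re ^ 2 + a.im ^ 2 + s ^ 2 * q a ^ 2 := by
  rw [WithLp.prod_norm_sq_eq_of_L2]
  show ‖a‖ ^ 2 + ‖s • (a.re, a.im)‖ ^ 2 = _
  rw [norm_smul, mul_pow, Real.norm_eq_abs, sq_abs, Complex.sq_norm, Complex.normSq_apply, ← sq, ← sq]
  rfl

theorem q0 (a : ℂ) : 0 ≤ q a := le_max_of_le_left (abs_nonneg _)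
theorem q1 (a : ℂ) : q a ^ 2 ≤ a.re ^ 2 + a.im ^ 2 := by
  have := pow_le_pow_left₀ (q0 a) (max_le a.abs_re_le_norm a.abs_im_le_norm) 2
  rwa [Complex.sq_norm, Complex.normSq_apply, ← sq, ← sq] at this
theorem q3 (a b : ℂ) : q (a + b) ≤ q a + q b := norm_add_le (a.re, a.im) (b.re, b.im)

abbrev P (s : ℝ) : Type := LinearMap.range (J s)

noncomputable def j (s : ℝ) : ℂ →ₗ[ℝ] P s := (J s).rangeRestrict

theorem nj (s a b : ℝ) : ‖j s ⟨a, b⟩‖ ^ 2 = a ^ 2 + b ^ 2 + s ^ 2 * max |a| |b| ^ 2 := nJ s _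

theorem Phas {s r : ℝ} (r0 : 0 ≤ r) (hr : r * s ^ 2 ≤ 2 + s ^ 2) : Has (P s) r := by
  have p : 0 < 1 + s ^ 2 := by positivity
  refine has (fun a w => a + 1 / (1 + s ^ 2) * w ≤ 1) ?_ fun a w => rp r0 ?_
  · rintro ⟨_, a, rfl⟩ ⟨_, b, rfl⟩ ha hb
    have ha : ‖J s a‖ ^ 2 = 1 := by rw [show ‖J s a‖ = 1 from ha]; simp
    have hb : ‖J s b‖ ^ 2 = 1 := by rw [show ‖J s b‖ = 1 from hb]; simp
    show ‖J s a + J s b‖ ^ 2 / 4 + _ * (‖J s a - J s b‖ ^ 2 / 4) ≤ 1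
    rw [← map_add, ← map_sub]; rw [nJ] at *
    have h1 : q (a + b) ^ 2 ≤ 2 * q a ^ 2 + 2 * q b ^ 2 := by
      nlinarith [pow_le_pow_left₀ (q0 _) (q3 a b) 2, sq_nonneg (q a - q b)]
    have h2 : 1 / (1 + s ^ 2) * (‖J s (a - b)‖ ^ 2 / 4) ≤ ((a - b).re ^ 2 + (a - b).im ^ 2) / 4 := by
      rw [nJ, one_div_mul_eq_div, div_le_iff₀ p]
      nlinarith [mul_le_mul_of_nonneg_left (q1 (a - b)) (sq_nonneg s)]
    simp only [Complex.add_re, Complex.add_im, Complex.sub_re, Complex.sub_im] at *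
    nlinarith [mul_le_mul_of_nonneg_left h1 (sq_nonneg s)]
  · rw [← sub_nonneg, show 1 + 1 / (1 + s ^ 2) - r * (1 - 1 / (1 + s ^ 2)) =
      (2 + s ^ 2 - r * s ^ 2) / (1 + s ^ 2) by field_simp; ring]
    exact div_nonneg (by linarith) p.le

theorem jadd (s a b c d : ℝ) : j s ⟨a, b⟩ + j s ⟨c, d⟩ = j s ⟨a + c, b + d⟩ := (map_add _ _ _).symm
theorem jsub (s a b c d : ℝ) : j s ⟨a, b⟩ - j s ⟨c, d⟩ = j s ⟨a - c, b - d⟩ := (map_sub _ _ _).symm

theorem sm (e : ℝ) (he : 0 < e) : ∀ᶠ w in 𝓝[>] (0 : ℝ), 0 < w ∧ w < e :=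
  Ioo_mem_nhdsGT he

theorem Pf1 {s r : ℝ} (hr : 2 + s ^ 2 < r * s ^ 2) : ¬Has (P s) r := by
  have p : 0 < 1 + s ^ 2 := by positivity
  obtain ⟨w, h, w0, w1⟩ := ((ev 1 0 (1 / (1 + s ^ 2)) 0 r (by
    rw [show -1 - 1 / (1 + s ^ 2) + r * (1 - 1 / (1 + s ^ 2)) =
      (r * s ^ 2 - (2 + s ^ 2)) / (1 + s ^ 2) by field_simp; ring]
    exact div_pos (by linarith) p)).and (sm 1 one_pos)).exists
  have a := Real.sq_sqrt w0.le
  have b := Real.sqrt_nonneg w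
  have c : √w ≤ 1 := Real.sqrt_le_one.2 w1.le
  generalize √w = u at *
  refine fail (j s ⟨u, 1⟩) (j s ⟨-u, 1⟩) p (by positivity) ?_ ?_ ?_ ?_ h (by positivity)
  · rw [nj, abs_one, abs_of_nonneg b, max_eq_right c, a]; field_simp; ring
  · rw [nj, abs_one, abs_neg, abs_of_nonneg b, max_eq_right c, neg_sq, a]; field_simp; ring
  · rw [jadd, nj]; norm_num; ring
  · rw [jsub, nj, sub_self, abs_zero, max_eq_left (abs_nonneg _), sq_abs, ← a]; ring

theorem Pf2 {s r : ℝ} (s0 : 0 < s) (hr : 1 < r) : ¬Has (P s) (-r) := by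
  have p : 0 < 2 + s ^ 2 := by positivity
  obtain ⟨w, h, w0, w1⟩ := ((ev 0 1 (2 * s ^ 2 / (2 + s ^ 2)) 1 (-r) (by
    have : 0 < 2 * s ^ 2 / (2 + s ^ 2) := by positivity
    nlinarith)).and (sm 1 one_pos)).exists
  have a : 0 < 1 - w := by linarith
  have b : 0 < 1 + w := by linarith
  refine fail (j s ⟨1 + w, 1 - w⟩) (j s ⟨1 - w, 1 + w⟩) p (by positivity) ?_ ?_ ?_ ?_ h (by positivity)
  · rw [nj, abs_of_pos a, abs_of_pos b, max_eq_left (by linarith)]; field_simp; ring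
  · rw [nj, abs_of_pos a, abs_of_pos b, max_eq_right (by linarith)]; field_simp; ring
  · rw [jadd, nj]; norm_num; ring
  · rw [jsub, nj, ← neg_sub (1 + w) (1 - w), abs_neg, max_self, sq_abs]; ring

noncomputable def pr (s : ℝ) : G →ₗ[ℝ] ℂ where
  toFun p := p.fst + ⟨s * p.snd.1, s * p.snd.2⟩
  map_add' a b := by apply Complex.ext <;> simp <;> ring
  map_smul' c a := by apply Complex.ext <;> simp <;> ring

instance (s : ℝ) : IsClosed (LinearMap.ker (pr s) : Set G) := Submodule.closed_of_finiteDimensional _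

abbrev Q (s : ℝ) : Type := G ⧸ LinearMap.ker (pr s)

noncomputable def k (s : ℝ) (a : ℂ) : Q s := Submodule.Quotient.mk (WithLp.toLp 2 (a, 0))

theorem mk_eq (s : ℝ) (p : G) (a : ℂ) : Submodule.Quotient.mk p = k s a ↔ pr s p = a := by
  rw [k, Submodule.Quotient.eq, LinearMap.mem_ker, map_sub, sub_eq_zero]
  refine Eq.congr_right ?_
  apply Complex.ext <;> simp [pr]

theorem smooth (s : ℝ) (u v : Q s) :
    ‖u + v‖ ^ 2 + ‖u - v‖ ^ 2 ≤ 2 * ‖u‖ ^ 2 + 2 * (1 + 2 * s ^ 2) * ‖v‖ ^ 2 := by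
  have c : Continuous fun e : ℝ => 2 * (‖u‖ + e) ^ 2 + 2 * (1 + 2 * s ^ 2) * (‖v‖ + e) ^ 2 := by
    fun_prop
  refine ge_of_tendsto ((c.tendsto' 0 _ (by simp)).mono_left (nhdsWithin_le_nhds (s := Ioi 0))) ?_
  filter_upwards [self_mem_nhdsWithin] with e he
  obtain ⟨p, rfl, hp⟩ := Submodule.Quotient.norm_mk_lt u he
  obtain ⟨z, hz, hv⟩ := Submodule.Quotient.norm_mk_lt v he
  have h1 := pow_le_pow_left₀ (norm_nonneg _) hp.le 2
  have h2 := pow_le_pow_left₀ (norm_nonneg _) hv.le 2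
  have e1 : v = k s (pr s z) := hz ▸ (mk_eq s z _).2 rfl
  have h3 : ‖Submodule.Quotient.mk p + v‖ ≤ ‖p + WithLp.toLp 2 (pr s z, 0)‖ := by
    rw [e1]; exact Submodule.Quotient.norm_mk_le _ _
  have h4 : ‖Submodule.Quotient.mk p - v‖ ≤ ‖p - WithLp.toLp 2 (pr s z, 0)‖ := by
    rw [e1]; exact Submodule.Quotient.norm_mk_le _ _
  have h3 := pow_le_pow_left₀ (norm_nonneg _) h3 2
  have h4 := pow_le_pow_left₀ (norm_nonneg _) h4 2
  have h5 : (pr s z).re ^ 2 + (pr s z).im ^ 2 ≤ (1 + 2 * s ^ 2) * ‖z‖ ^ 2 := by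
    have := pow_le_pow_left₀ (abs_nonneg _) (le_max_left |z.snd.1| |z.snd.2|) 2
    have := pow_le_pow_left₀ (abs_nonneg _) (le_max_right |z.snd.1| |z.snd.2|) 2
    rw [nG]; simp only [sq_abs] at *
    show (z.fst.re + s * z.snd.1) ^ 2 + (z.fst.im + s * z.snd.2) ^ 2 ≤ _
    nlinarith [sq_nonneg (2 * s * z.fst.re - z.snd.1), sq_nonneg (2 * s * z.fst.im - z.snd.2),
      sq_nonneg s]
  rw [nG] at h1 h3 h4
  simp at h3 h4
  nlinarith [mul_le_mul_of_nonneg_left h2 (show 0 ≤ 1 + 2 * s ^ 2 by positivity)]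

theorem Qhas {s r : ℝ} (r0 : 1 ≤ r) (hr : (r - 1) * s ^ 2 ≤ 1) : Has (Q s) (-r) := by
  refine has (fun a w => 1 ≤ a + (1 + 2 * s ^ 2) * w) (fun u v hu hv => ?_)
    fun a w => rn r0 (by linarith)
  have := smooth s (u + v) (u - v)
  rw [add_add_sub_cancel, add_sub_sub_cancel, ← two_smul ℝ u, ← two_smul ℝ v, norm_smul, norm_smul,
    hu, hv] at this
  norm_num at this ⊢; linarith

theorem nk {s p h g : ℝ} (s0 : 0 < s) (hg : |g| = 1) (hh : |h| ≤ p) :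
    ‖k s ⟨(1 + 2 * s ^ 2) * p + h, g * ((1 + 2 * s ^ 2) * p - h)⟩‖ ^ 2 =
      2 * (1 + 2 * s ^ 2) * p ^ 2 + 2 * h ^ 2 := by
  have g2 : g ^ 2 = 1 := by rw [← sq_abs, hg]; simp
  obtain ⟨h1, h2⟩ := abs_le.1 hh
  apply le_antisymm
  · have := Submodule.Quotient.norm_mk_le (S := LinearMap.ker (pr s))
      (WithLp.toLp 2 (⟨p + h, g * (p - h)⟩, 2 * s * p, g * (2 * s * p)))
    rw [(mk_eq s _ ⟨(1 + 2 * s ^ 2) * p + h, g * ((1 + 2 * s ^ 2) * p - h)⟩).2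
      (by apply Complex.ext <;> simp [pr] <;> ring)] at this
    refine (pow_le_pow_left₀ (norm_nonneg _) this 2).trans_eq ?_
    rw [nG]
    show (p + h) ^ 2 + (g * (p - h)) ^ 2 + max |2 * s * p| |g * (2 * s * p)| ^ 2 = _
    rw [abs_mul g, hg, one_mul, max_self, sq_abs, mul_pow, g2]; ring
  · refine (Real.sqrt_le_left (norm_nonneg _)).1 ?_
    refine QuotientAddGroup.le_norm_iff.2 fun z hz => Real.sqrt_le_iff.2 ⟨norm_nonneg _, ?_⟩
    have e := (mk_eq s z _).1 hz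
    have e1 : z.fst.re + s * z.snd.1 = (1 + 2 * s ^ 2) * p + h := congrArg Complex.re e
    have e2 : z.fst.im + s * z.snd.2 = g * ((1 + 2 * s ^ 2) * p - h) := congrArg Complex.im e
    have m1 : z.snd.1 ≤ max |z.snd.1| |z.snd.2| := le_max_of_le_left (le_abs_self _)
    have m2 : g * z.snd.2 ≤ max |z.snd.1| |z.snd.2| :=
      le_max_of_le_right ((le_abs_self _).trans_eq (by rw [abs_mul, hg, one_mul]))
    rw [nG]
    generalize max |z.snd.1| |z.snd.2| = m at *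
    have e3 : g * z.fst.im + s * (g * z.snd.2) = (1 + 2 * s ^ 2) * p - h := by
      linear_combination g * e2 + ((1 + 2 * s ^ 2) * p - h) * g2
    have e4 : z.fst.im ^ 2 = (g * z.fst.im) ^ 2 := by rw [mul_pow, g2, one_mul]
    rw [e4]
    generalize g * z.fst.im = a2 at *
    generalize g * z.snd.2 = b2 at *
    have t1 := mul_nonneg (mul_nonneg s0.le (show 0 ≤ p + h by linarith)) (sub_nonneg.2 m1)
    have t2 := mul_nonneg (mul_nonneg s0.le (show 0 ≤ p - h by linarith)) (sub_nonneg.2 m2)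
    have f1 := congrArg (· * (p + h)) e1
    have f2 := congrArg (· * (p - h)) e3
    nlinarith [sq_nonneg (z.fst.re - (p + h)), sq_nonneg (a2 - (p - h)), sq_nonneg (m - 2 * s * p)]

theorem kadd (s a b c d : ℝ) : k s ⟨a, b⟩ + k s ⟨c, d⟩ = k s ⟨a + c, b + d⟩ :=
  (mk_eq s _ _).2 (by apply Complex.ext <;> simp [pr])
theorem ksub (s a b c d : ℝ) : k s ⟨a, b⟩ - k s ⟨c, d⟩ = k s ⟨a - c, b - d⟩ :=
  (mk_eq s _ _).2 (by apply Complex.ext <;> simp [pr])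

theorem Qf {s r : ℝ} (s0 : 0 < s) (hr : 1 < (r - 1) * s ^ 2) : ¬Has (Q s) (-r) := by
  have p : 0 < 1 + 2 * s ^ 2 := by positivity
  obtain ⟨w, h, w0, w1⟩ := ((ev 1 0 (1 + 2 * s ^ 2) 0 (-r) (by linarith)).and
    (sm (1 / (1 + 2 * s ^ 2) ^ 2) (by positivity))).exists
  have a := Real.sq_sqrt w0.le
  have b := Real.sqrt_nonneg w
  generalize √w = u at *
  set K := 1 + 2 * s ^ 2 with hK
  have c : |K * u| ≤ 1 := by
    rw [lt_div_iff₀ (by positivity), ← a] at w1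
    exact (sq_le_one_iff_abs_le_one _).1 (by linarith)
  refine fail (k s ⟨K * 1 + K * u, 1 * (K * 1 - K * u)⟩) (k s ⟨K * 1 + -(K * u), 1 * (K * 1 - -(K * u))⟩)
    (m := 2 * K) (by positivity) (by positivity) ?_ ?_ ?_ ?_ h (by positivity)
  · rw [nk s0 abs_one c, ← a]; ring
  · rw [nk s0 abs_one ((abs_neg _).trans_le c), ← a]; ring
  · have := nk (p := 2) (h := 0) s0 abs_one (by simp)
    rw [← hK] at this; rw [kadd]; convert this using 5 <;> ring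
  · have := nk (p := 2 * u) (h := 0) (g := -1) s0 (by simp) (by simpa using b)
    rw [← hK] at this; rw [ksub, ← a]; convert this using 5 <;> ring

theorem exQ {c d : ℝ} (hc : 1 < c) (cd : c < d) : ∃ S, S ∈ cls (-c) ∧ S ∉ cls (-d) := by
  have p : 0 < 1 / (c - 1) := one_div_pos.2 (by linarith)
  have e := Real.sq_sqrt p.le
  have f : (c - 1) * (1 / (c - 1)) = 1 := mul_one_div_cancel (by linarith)
  exact ⟨⟨Q √(1 / (c - 1))⟩, Qhas hc.le (by rw [e, f]), Qf (Real.sqrt_pos.2 p) (by rw [e]; nlinarith)⟩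

theorem exP {a : ℝ} (ha : 1 < a) : ∃ S, (∀ r, 0 ≤ r → r ≤ a → S ∈ cls r) ∧ (∀ r, a < r → S ∉ cls r) ∧
    ∀ r, 1 < r → S ∉ cls (-r) := by
  have p : 0 < 2 / (a - 1) := div_pos two_pos (by linarith)
  have e := Real.sq_sqrt p.le
  have f : (a - 1) * (2 / (a - 1)) = 2 := mul_div_cancel₀ _ (by linarith)
  exact ⟨⟨P √(2 / (a - 1))⟩, fun r r0 h => Phas r0 (by rw [e]; nlinarith),
    fun r h => Pf1 (by rw [e]; nlinarith), fun r h => Pf2 (Real.sqrt_pos.2 p) h⟩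

theorem result (a b c d : ℝ) (hc : 1 < c) (cd : c < d) (ha : 1 < a) (ab : a < b) :
    [cls (-d), cls (-c), univ, cls a, cls b].Pairwise (· ≠ ·) := by
  obtain ⟨S, s1, s2⟩ := exQ hc cd
  obtain ⟨T, t1, t2, -⟩ := exP ha
  obtain ⟨U, u1, -, u3⟩ := exP (ha.trans ab)
  obtain ⟨V, -, v2, -⟩ := exP (show 1 < (1 + a) / 2 by linarith)
  have ua := u1 a (by linarith) ab.le
  have ub := u1 b (by linarith) le_rfl
  have uc := u3 c hc
  have ud := u3 d (hc.trans cd)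
  have ta := t1 a (by linarith) le_rfl
  have tb := t2 b ab
  have va := v2 a (by linarith)
  simp only [List.pairwise_cons, List.mem_cons, List.not_mem_nil, or_false, forall_eq_or_imp, forall_eq,
    List.Pairwise.nil, and_true, false_imp_iff, implies_true]
  refine ⟨⟨?_, ?_, ?_, ?_⟩, ⟨?_, ?_, ?_⟩, ⟨?_, ?_⟩, ?_⟩ <;> intro h
  exacts [s2 (h ▸ s1), ud (h ▸ mem_univ _), ud (h ▸ ua), ud (h ▸ ub), uc (h ▸ mem_univ _), uc (h ▸ ua),
    uc (h ▸ ub), va (h ▸ mem_univ _), tb (h ▸ mem_univ _), tb (h ▸ ta)]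

end Pool.Agent.Results.MP_843c3c_an.Distinct
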